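import Mathlib

set_option autoImplicit false
open Finset SimpleGraph
open scoped Classical

namespace Pool.Agent.Results.MP_0edf05_co.Product

variable {V : Type} [Fintype V] {G : SimpleGraph V} {m : ℕ}

/-- The average distance over pairs of distinct vertices. -/
noncomputable def avg (G : SimpleGraph V) : ℚ :=
  (∑ p ∈ (univ : Finset V).offDiag, (G.dist p.1 p.2 : ℚ)) / (Fintype.card V * (Fintype.card V - 1))

/-- The conjectured bound. -/
def bnd (n : ℕ) : ℚ := if Even n then n ^ 3 / (4 * (n - 1)) else (n ^ 2 + n) / 4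

def mu (x : Fin (m + 3)) : ℕ := min x.val (m + 3 - x.val)

theorem sm : ∀ g, ∑ x ∈ range g, min x (g - x) = g ^ 2 / 4
  | 0 => rfl
  | 1 => rfl
  | g + 2 => by
    rw [sum_range_succ', sum_congr rfl (g := fun x => min x (g - x) + 1) fun x hx => by
      have := mem_range.mp hx; omega, sum_add_distrib, sum_range_succ, sm g,
      show (g + 2) ^ 2 = g ^ 2 + 4 * (g + 1) by ring]
    simp; omega

theorem smu (i : Fin (m + 3)) : ∑ j, mu (j - i) = (m + 3) ^ 2 / 4 :=
  ((Equiv.subRight i).sum_comp mu).trans ((Fin.sum_univ_eq_sum_range (fun x => min x (m + 3 - x)) _).trans (sm _))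

theorem lip (x : Fin (m + 3)) : mu (x + 1) ≤ mu x + 1 ∧ mu x ≤ mu (x + 1) + 1 := by
  have := x.2
  simp only [mu, Fin.val_add_one, Fin.ext_iff, Fin.val_last]; split_ifs <;> omega

theorem up (hG : G.Connected) {c : Fin (m + 3) → V} (h : ∀ i, G.Adj (c i) (c (i + 1))) (i j : Fin (m + 3)) :
    G.dist (c i) (c j) ≤ mu (j - i) := by
  have a : ∀ i x, G.dist (c i) (c (i + x)) ≤ x.val := fun i x => by
    induction x using Fin.induction with
    | zero => simp
    | succ x ih =>
      have := hG.dist_triangle (u := c i) (v := c (i + x.castSucc)) (w := c (i + x.castSucc + 1))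
      rw [dist_eq_one_iff_adj.mpr (h _), add_assoc, Fin.coeSucc_eq_succ] at this
      exact this.trans (Nat.succ_le_succ ih)
  have x := a i (j - i)
  have y := a j (-(j - i))
  rw [add_sub_cancel] at x
  rw [Fin.val_neg, neg_sub, add_sub_cancel, dist_comm] at y
  rw [mu]; split_ifs at y <;> omega

theorem lev (d : V → ℕ) (S : Finset V) : (∀ v ∈ S, 1 ≤ d v ∧ (2 ≤ d v → ∃ u ∈ S, d u + 1 = d v)) →
    2 * ∑ v ∈ S, d v ≤ #S * (#S + 1) := by
  induction S using Finset.induction_on_max_value d with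
  | empty => simp
  | insert a S ha mx ih =>
    intro h
    have e : ∀ k, k < d a → ∃ u ∈ insert a S, d u + k = d a := fun k => by
      induction k with
      | zero => exact fun _ => ⟨a, by simp, rfl⟩
      | succ k ih =>
        intro l
        obtain ⟨u, x, y⟩ := ih (by omega)
        obtain ⟨w, z, t⟩ := (h u x).2 (by omega)
        exact ⟨w, z, by omega⟩
    have b : d a ≤ #S + 1 := by
      rw [← card_insert_of_notMem ha, ← card_range (d a)]
      refine le_trans (card_le_card fun k hk => ?_) (card_image_le (f := fun u => d a - d u))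
      obtain ⟨u, x, y⟩ := e k (mem_range.mp hk)
      exact mem_image.mpr ⟨u, x, by omega⟩
    have := ih fun v hv => ⟨(h v (by simp [hv])).1, fun l => by
      obtain ⟨u, x, y⟩ := (h v (by simp [hv])).2 l
      exact ⟨u, (mem_insert.mp x).resolve_left fun q => by have := mx v hv; rw [q] at y; omega, y⟩⟩
    rw [sum_insert ha, card_insert_of_notMem ha]; nlinarith

theorem small (hG : G.Connected) {c : Fin (m + 3) → V} (inj : c.Injective) (h : ∀ i, G.Adj (c i) (c (i + 1)))
    (hn : m + 3 < Fintype.card V) :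
    (∑ u, ∑ v, G.dist u v) * (m + 3) < Fintype.card V ^ 2 * (Fintype.card V ^ 2 / 4) := by
  choose p hp using fun u => exists_min_image univ (fun i => G.dist u (c i)) univ_nonempty
  simp only [mem_univ, true_and, true_imp_iff] at hp
  obtain ⟨d, hd⟩ : ∃ d : V → ℕ, ∀ u, d u = G.dist u (c (p u)) := ⟨_, fun _ => rfl⟩
  obtain ⟨C, hC⟩ : ∃ C, C = image c univ := ⟨_, rfl⟩
  have cC : #C = m + 3 := by simp [hC, card_image_of_injective _ inj]
  have d0 : ∀ u, d u = 0 ↔ u ∈ C := fun u => ⟨fun e => by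
    rw [hd, hG.dist_eq_zero_iff] at e; rw [e]; simp [hC], fun e => by
    obtain ⟨i, -, rfl⟩ := mem_image.mp (hC ▸ e)
    simpa [hd] using hp (c i) i⟩
  have L := lev d Cᶜ fun v hv => ⟨Nat.pos_of_ne_zero (mt (d0 v).mp (mem_compl.mp hv)), fun l => by
    obtain ⟨w, hw⟩ := hG.exists_walk_length_eq_dist v (c (p v))
    have a := (hp w.snd (p v)).trans (dist_le w.tail)
    have nn : ¬w.Nil := by rw [Walk.nil_iff_length_eq]; rw [hd] at l; omega
    have b := (hp v (p w.snd)).trans (hG.dist_triangle (v := w.snd))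
    rw [dist_eq_one_iff_adj.mpr (w.adj_snd nn), ← hd, ← hd] at b
    have := Walk.length_tail_add_one nn
    rw [← hd] at a hw
    exact ⟨w.snd, mem_compl.mpr (mt (d0 _).mpr (by omega)), by omega⟩⟩
  have T : ∀ u, ∑ v ∈ C, G.dist u v ≤ (m + 3) * d u + (m + 3) ^ 2 / 4 := fun u => by
    rw [hC, sum_image inj.injOn, ← smu (p u)]
    refine (sum_le_sum fun j _ => (hG.dist_triangle (v := c (p u))).trans
      (Nat.add_le_add_left (up hG h _ _) _)).trans_eq ?_
    simp [sum_add_distrib, hd]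
  have P : ∀ u v, 2 * G.dist u v + (if u = v then 4 * d u + (m + 3) else 0) ≤ 2 * d u + 2 * d v + (m + 3) :=
    fun u v => by
    split_ifs with e
    · simp [e]; omega
    have a := hG.dist_triangle (u := u) (v := c (p u)) (w := v)
    have b := hG.dist_triangle (u := c (p u)) (v := c (p v)) (w := v)
    have := up hG h (p u) (p v)
    rw [dist_comm (v := v) (u := c (p v)), ← hd] at b
    rw [← hd] at a
    unfold mu at this; omega
  have s1 := sum_le_sum (s := univ) fun u _ => T u
  have s2 := sum_le_sum (s := Cᶜ) fun u _ => T u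
  have s3 := sum_le_sum (s := Cᶜ) fun u _ => sum_le_sum (s := Cᶜ) fun v _ => P u v
  have z : ∑ u, d u = ∑ u ∈ Cᶜ, d u := by
    rw [← sum_add_sum_compl C, sum_eq_zero fun u hu => (d0 u).mpr hu, zero_add]
  have D : ∑ u, ∑ v, G.dist u v = ∑ u, ∑ v ∈ C, G.dist u v + (∑ u ∈ Cᶜ, ∑ v ∈ C, G.dist u v +
      ∑ u ∈ Cᶜ, ∑ v ∈ Cᶜ, G.dist u v) := by
    rw [sum_congr rfl fun u _ => (sum_add_sum_compl C _).symm, sum_add_distrib, ← sum_add_sum_compl C
      fun u => ∑ v ∈ Cᶜ, G.dist u v, sum_comm (s := C) (t := Cᶜ)]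
    simp only [dist_comm]
  simp only [sum_add_distrib, ← mul_sum, sum_const, smul_eq_mul, card_univ, z, sum_ite_eq, sum_ite_mem,
    inter_self] at s1 s2 s3
  obtain ⟨k, hk⟩ : ∃ k, #Cᶜ = k + 1 := ⟨#Cᶜ - 1, by rw [card_compl]; omega⟩
  have n : Fintype.card V = m + 3 + (k + 1) := by rw [← cC, ← hk, card_add_card_compl]
  have q1 : 4 * ((m + 3) ^ 2 / 4) ≤ (m + 3) ^ 2 := Nat.mul_div_le _ _
  have q2 : Fintype.card V ^ 2 ≤ 4 * (Fintype.card V ^ 2 / 4) + 1 := by
    have := Nat.pow_mod (Fintype.card V) 2 4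
    have h4 : Fintype.card V % 4 < 4 := Nat.mod_lt _ (by omega)
    generalize Fintype.card V % 4 = r at this h4
    interval_cases r <;> omega
  rw [D]
  rw [hk] at L s2 s3
  generalize Fintype.card V ^ 2 / 4 = Q at *
  generalize (m + 3) ^ 2 / 4 = q at *
  rw [n] at *
  have f : 4 * (∑ u, ∑ v ∈ C, G.dist u v + (∑ u ∈ Cᶜ, ∑ v ∈ C, G.dist u v + ∑ u ∈ Cᶜ, ∑ v ∈ Cᶜ, G.dist u v)) ≤
      4 * (m + 3 + k) * ((k + 1) * (k + 2)) + (m + 3 + 2 * (k + 1)) * (m + 3) ^ 2 + 2 * k * (k + 1) * (m + 3) := by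
    nlinarith [Nat.mul_le_mul_left (m + 3 + k) L, Nat.mul_le_mul_left (m + 3 + 2 * (k + 1)) q1]
  have := Nat.mul_le_mul_right (m + 3) f
  have := Nat.mul_le_mul_left ((m + 3 + (k + 1)) ^ 2) q2
  have : (4 * (m + 3 + k) * ((k + 1) * (k + 2)) + (m + 3 + 2 * (k + 1)) * (m + 3) ^ 2 + 2 * k * (k + 1) * (m + 3)) *
      (m + 3) + (m + 3 + (k + 1)) ^ 2 < (m + 3 + (k + 1)) ^ 2 * (m + 3 + (k + 1)) ^ 2 := by
    ring_nf; omega
  nlinarith

theorem chord {c : Fin (m + 3) → V} (inj : c.Injective) (h : ∀ i, G.Adj (c i) (c (i + 1))) (hg : G.girth = m + 3)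
    {i j : Fin (m + 3)} (a : G.Adj (c i) (c j)) : (cycleGraph (m + 3)).Adj i j := by
  wlog l : i < j generalizing i j
  · exact (this a.symm (lt_of_le_of_ne (not_lt.mp l) fun e => a.ne (e ▸ rfl))).symm
  by_contra x
  rw [cycleGraph_adj', Fin.sub_val_of_le l.le, Fin.val_sub] at x
  have := j.2
  obtain ⟨t, ht⟩ : ∃ t, j.val = i + t + 2 := ⟨j - i - 2, by omega⟩
  have lt : t < m := by
    by_contra y
    exact x (Or.inl (by rw [show m + 3 - j + i = 1 by omega]; rfl))
  have s : ∀ u v : Fin (t + 3), (u - v).val = 1 → G.Adj (c ⟨i + u, by omega⟩) (c ⟨i + v, by omega⟩) := fun u v e => by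
    obtain rfl : u = v + 1 := eq_add_of_sub_eq' (Fin.ext e)
    by_cases y : v = Fin.last _
    · subst y; rw [Fin.last_add_one]
      exact (congrArg (fun w => G.Adj (c i) (c w)) (Fin.ext ht)).mp a
    · have z := Fin.val_add_one_of_lt (Fin.lt_last_iff_ne_last.mpr y)
      have : v.val ≠ t + 2 := fun q => y (Fin.ext q)
      have := v.2
      refine (congrArg (fun w => G.Adj (c w) _) (Fin.ext ?_)).mp (h ⟨i + v, by omega⟩).symm
      rw [Fin.val_add_one_of_lt (by simp only [Fin.lt_def, Fin.val_last]; omega)]; simp only [z]; omega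
  obtain ⟨v, w, y, z⟩ := (cycleGraph_isContained_iff (n := t + 3) (G := G) (by omega)).mp
    ⟨⟨⟨fun u => c ⟨i + u, by omega⟩, fun {u v} e => (cycleGraph_adj'.mp e).elim (s u v) fun e => (s v u e).symm⟩,
      fun u v e => by simpa [Fin.ext_iff] using inj e⟩⟩
  have := girth_le_length y; omega

theorem exact (hG : G.Connected) (e : cycleGraph (m + 3) ≃g G) : ∑ u, ∑ v, G.dist u v = (m + 3) * ((m + 3) ^ 2 / 4) := by
  have a : ∀ i {u v} (w : G.Walk u v), mu (e.symm v - i) ≤ mu (e.symm u - i) + w.length := fun i u v w => by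
    induction w with
    | nil => simp
    | @cons u v _ x w ih =>
      have := lip (e.symm u - i); have := lip (e.symm v - i)
      rcases cycleGraph_adj.mp (e.symm.map_adj_iff.mpr x) with y | y <;> rw [sub_eq_iff_eq_add'] at y <;>
        rw [Walk.length_cons]
      · rw [y, add_sub_right_comm]; omega
      · rw [y, add_sub_right_comm] at ih; omega
  have b : ∀ i j, G.dist (e i) (e j) = mu (j - i) := fun i j => by
    refine le_antisymm (up hG (c := e) (fun i => e.map_adj_iff.mpr (cycleGraph_adj.mpr (by simp))) i j) ?_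
    obtain ⟨w, hw⟩ := hG.exists_walk_length_eq_dist (e i) (e j)
    simpa [mu, hw] using a i w
  rw [← e.toEquiv.sum_comp]
  exact (sum_congr rfl fun i _ => ((e.toEquiv.sum_comp _).symm.trans
    (sum_congr rfl fun j _ => b i j)).trans (smu i)).trans (by simp)

theorem big {n : ℕ} {c : Fin (m + 3) → Fin (n + 3)} (inj : c.Injective)
    (h : ∀ i, (cycleGraph (n + 3)).Adj (c i) (c (i + 1))) : n ≤ m := by
  have : ∀ v, ∃ i, c i = c 0 + v := fun v => by
    induction v using Fin.induction with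
    | zero => exact ⟨0, by simp⟩
    | succ v ih =>
      obtain ⟨i, e⟩ := ih
      rw [← Fin.coeSucc_eq_succ, ← add_assoc, ← e]
      have a := cycleGraph_adj.mp (h i)
      have b := cycleGraph_adj.mp (h (i - 1))
      rw [sub_add_cancel] at b
      rcases a with a | a
      · rcases b with b | b
        · exact ⟨_, eq_add_of_sub_eq' b⟩
        · have := inj (sub_right_injective (a.trans b.symm))
          rw [sub_eq_add_neg, add_right_inj, eq_neg_iff_add_eq_zero, Fin.ext_iff] at this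
          simp [Fin.val_add, Nat.mod_eq_of_lt] at this
      · exact ⟨_, eq_add_of_sub_eq' a⟩
  simpa using Fintype.card_le_of_surjective c fun v => (this (v - c 0)).imp fun _ e => by simpa using e

theorem result (V : Type) [Fintype V] (G : SimpleGraph V) (hn : 3 ≤ Fintype.card V) (hG : G.Connected)
    (hc : ¬G.IsAcyclic) : avg G * G.girth ≤ bnd (Fintype.card V) ∧
      (avg G * G.girth = bnd (Fintype.card V) ↔ Nonempty (G ≃g cycleGraph (Fintype.card V))) := by
  obtain ⟨m, hm⟩ := Nat.exists_eq_add_of_le' (three_le_girth hc)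
  obtain ⟨a, w, w1, w2⟩ := exists_girth_eq_length.mpr hc
  obtain ⟨⟨c, inj⟩⟩ := (cycleGraph_isContained_iff (n := m + 3) (G := G) (by omega)).mpr ⟨a, w, w1, by omega⟩
  have h : ∀ i, G.Adj (c i) (c (i + 1)) := fun i => c.map_adj (cycleGraph_adj.mpr (by simp))
  have n3 : (3 : ℚ) ≤ Fintype.card V := by exact_mod_cast hn
  have p : (0 : ℚ) < Fintype.card V * (Fintype.card V - 1) := mul_pos (by linarith) (by linarith)
  have e1 : avg G * G.girth = ((∑ u, ∑ v, G.dist u v) * (m + 3) : ℕ) / (Fintype.card V * (Fintype.card V - 1)) := by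
    rw [avg, hm, div_mul_eq_mul_div, ← sum_product', ← diag_union_offDiag, sum_union (disjoint_diag_offDiag _)]
    simp
  have e2 : bnd (Fintype.card V) = (Fintype.card V ^ 2 * (Fintype.card V ^ 2 / 4) : ℕ) /
      (Fintype.card V * (Fintype.card V - 1)) := by
    have : (Fintype.card V : ℚ) - 1 ≠ 0 := by linarith
    rw [bnd, eq_div_iff p.ne']
    obtain ⟨k, e | e⟩ := Nat.even_or_odd' (Fintype.card V) <;> rw [e] at this ⊢
    · rw [if_pos (by simp), show (2 * k) ^ 2 / 4 = k ^ 2 by rw [mul_pow]; omega]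
      push_cast at this ⊢; field_simp; ring
    · rw [if_neg (by simp), show (2 * k + 1) ^ 2 / 4 = k ^ 2 + k by rw [add_sq, mul_pow]; omega]
      push_cast; ring
  rw [e1, e2, div_le_div_iff_of_pos_right p, div_left_inj' p.ne', Nat.cast_le, Nat.cast_inj]
  rcases (Fintype.card_le_of_injective c inj).eq_or_lt with e | e <;> rw [Fintype.card_fin] at e
  · let f : cycleGraph (m + 3) ≃g G := ⟨Equiv.ofBijective c ((Fintype.bijective_iff_injective_and_card c).mpr
      ⟨inj, by simpa⟩), ⟨chord inj h hm, c.map_adj⟩⟩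
    rw [exact hG f, ← e]
    exact ⟨le_of_eq (by ring), iff_of_true (by ring) ⟨f.symm⟩⟩
  · have := small hG inj h e
    refine ⟨this.le, iff_of_false this.ne fun ⟨f⟩ => ?_⟩
    obtain ⟨n, hn⟩ := Nat.exists_eq_add_of_le' hn
    rw [hn] at f e
    have := big (f.injective.comp inj) fun i => f.map_adj_iff.mpr (h i)
    omega

end Pool.Agent.Results.MP_0edf05_co.Product
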